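import Pool.Agent.helper5.IH.Spec

/-! # Row IDP (MP_45d809_mp) -/

set_option autoImplicit false

namespace Pool.Agent.IH
open Finset CT SYM

theorem IDP_pa (s : Fin 3) (h : pa s 0 = 1) : s = 0 := by
  revert h
  fin_cases s <;> simp [pa]

/-- the first component and the neighbour determine the dart -/
theorem IDP_det {V : Type} {G : SimpleGraph V} (e : V × Fin 4 → V × Fin 4) (δ : G.Dart ≃ V × Fin 4)
    (h1 : ∀ d, (δ d).1 = d.fst) (h2 : ∀ d, δ d.symm = e (δ d))
    (h3 : ∀ u i j, (e (u, i)).1 = (e (u, j)).1 → i = j) (d : G.Dart) (x : V × Fin 4)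
    (hx1 : x.1 = d.fst) (hx2 : (e x).1 = d.snd) : δ d = x := by
  have h4 : (e (δ d)).1 = d.snd := by
    rw [← h2, h1]
    rfl
  have h5 : δ d = (d.fst, (δ d).2) := Prod.ext (h1 d) rfl
  have h6 : x = (d.fst, x.2) := Prod.ext hx1 rfl
  rw [h5] at h4
  rw [h6] at hx2
  have h7 := h3 d.fst (δ d).2 x.2 (h4.trans hx2.symm)
  rw [h5, h6, h7]

theorem IDP_zero {V : Type} [Fintype V] [DecidableEq V] (G : SimpleGraph V) (m : ℕ) (q : ℕ → V)
    (a b : V → ℕ) (e : V × Fin 4 → V × Fin 4) (δ : G.Dart ≃ V × Fin 4) (τ' : G.Dart → G.Dart) (t' : V → Fin 3)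
    (hq : EW G m q) (hp : Pos m q a b)
    (he1 : ∀ i, e (outD m q a i) = inD m q a (i + 1)) (he2 : ∀ i, e (inD m q a (i + 1)) = outD m q a i)
    (h1 : ∀ d, (δ d).1 = d.fst) (h2 : ∀ d, δ d.symm = e (δ d))
    (h3 : ∀ u i j, (e (u, i)).1 = (e (u, j)).1 → i = j)
    (hF : Fol q τ') (ht : ∀ d, δ (τ' d) = tr t' (δ d)) (v : V) : t' v = 0 := by
  have ham := (hp.lt v).1.trans (hp.lt v).2
  have hpos := hq.pos
  obtain ⟨p, hp1⟩ : ∃ p, p + 1 = a v + m := ⟨a v + m - 1, by omega⟩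
  have hqv : q (p + 1) = v := by rw [hp1, hq.per, (hp.val v).1]
  have hmod : (p + 1) % m = a v := by rw [hp1, Nat.add_mod_right, Nat.mod_eq_of_lt ham]
  have hadj1 : G.Adj (q (p + 1)) (q p) := (hq.adj p).symm
  have hadj2 : G.Adj (q (p + 1)) (q (p + 2)) := hq.adj (p + 1)
  have hd := hF p ⟨(q (p + 1), q p), hadj1⟩ ⟨(q (p + 1), q (p + 2)), hadj2⟩ rfl rfl rfl rfl
  have e1 : δ ⟨(q (p + 1), q p), hadj1⟩ = inD m q a (p + 1) :=
    IDP_det e δ h1 h2 h3 _ _ rfl (by rw [he2]; rfl)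
  have e2 : δ ⟨(q (p + 1), q (p + 2)), hadj2⟩ = outD m q a (p + 1) :=
    IDP_det e δ h1 h2 h3 _ _ rfl (by rw [he1]; rfl)
  have h4 := ht ⟨(q (p + 1), q p), hadj1⟩
  rw [hd, e1, e2] at h4
  have h5 : inD m q a (p + 1) = (v, 0) := by
    unfold inD
    rw [hqv, if_pos hmod]
  have h6 : outD m q a (p + 1) = (v, 1) := by
    unfold outD
    rw [hqv, if_pos hmod]
  rw [h5, h6] at h4
  have h7 : (1 : Fin 4) = pa (t' v) 0 := congrArg Prod.snd h4
  exact IDP_pa _ h7.symm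

theorem IDP (hPOS : POS_stmt) (hEMB : EMB_stmt) (hTRX : TRX_stmt) (hLBW : LBW_stmt) : IDP_stmt := by
  classical
  intro V _ _ G m q τ τ' S hG hq hτ hτ' hF hS
  obtain ⟨a, b, hp⟩ := hPOS V G m q hG hq
  obtain ⟨e, he1, he2, hact, hadj, hsur, hinj⟩ := hEMB V G m q a b hG hq hp
  obtain ⟨δ, h1, h2, h3⟩ := hTRX V G e hact hadj hsur hinj
  obtain ⟨t, ht, hc⟩ := h3 τ hτ
  obtain ⟨t', ht', _⟩ := h3 τ' hτ'
  have ht0' := IDP_zero G m q a b e δ τ' t' hq hp he1 he2 h1 h2 hinj hF ht'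
  have ht0 : ∀ v, v ∉ S → t v = 0 := by
    intro v hv
    have e1 := ht (δ.symm (v, 0))
    have e2 := ht' (δ.symm (v, 0))
    have e3 : (δ.symm (v, 0)).fst = v := by
      rw [← h1, Equiv.apply_symm_apply]
    rw [hS _ (by rw [e3]; exact hv), e2, Equiv.apply_symm_apply] at e1
    have e4 : pa (t' v) 0 = pa (t v) 0 := congrArg Prod.snd e1
    rw [ht0' v] at e4
    exact IDP_pa _ e4.symm
  have hL := hLBW V G m q a b e t hq hp he1 he2
  rw [hL] at hc
  have hz : ∀ z : {z : V → ZMod 2 // Kz (IG m q) t z}, ∀ v, v ∉ S → z.1 v = 0 :=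
    fun z v hv => (z.2 v).1 (ht0 v hv)
  let f : {z : V → ZMod 2 // Kz (IG m q) t z} → (S → ZMod 2) := fun z v => z.1 v.1
  have hf : Function.Injective f := by
    intro z w hzw
    apply Subtype.ext
    funext v
    by_cases hv : v ∈ S
    · exact congrFun hzw ⟨v, hv⟩
    · rw [hz z v hv, hz w v hv]
  have hcard : Nat.card (S → ZMod 2) = 2 ^ S.card := by
    rw [Nat.card_eq_fintype_card, Fintype.card_fun, ZMod.card, Fintype.card_coe]
  have hle : Nat.card {z : V → ZMod 2 // Kz (IG m q) t z} ≤ 2 ^ S.card := by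
    rw [← hcard]
    exact Nat.card_le_card_of_injective f hf
  refine ⟨?_, ?_⟩
  · have h5 : 2 ^ nci τ ≤ 2 ^ (S.card + 1) := by
      rw [hc, pow_succ]
      omega
    exact (Nat.pow_le_pow_iff_right (by norm_num)).1 h5
  · intro hge x hx y hy hxy
    have hxy' : x ≠ y := hxy.ne
    have h5 : 2 ^ (S.card + 1) ≤ 2 ^ nci τ := Nat.pow_le_pow_right (by norm_num) hge
    rw [hc, pow_succ] at h5
    have h6 : Nat.card (S → ZMod 2) ≤ Nat.card {z : V → ZMod 2 // Kz (IG m q) t z} := by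
      rw [hcard]
      omega
    have hbij : Function.Bijective f := by
      rw [Nat.bijective_iff_injective_and_card]
      exact ⟨hf, le_antisymm (Nat.card_le_card_of_injective f hf) h6⟩
    have hall : ∀ z : V → ZMod 2, (∀ v, v ∉ S → z v = 0) → Kz (IG m q) t z := by
      intro z hz0
      obtain ⟨w, hw⟩ := hbij.2 (fun v => z v.1)
      have : w.1 = z := by
        funext v
        by_cases hv : v ∈ S
        · exact congrFun hw ⟨v, hv⟩
        · rw [hz w v hv, hz0 v hv]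
      rw [← this]
      exact w.2
    have hs : ∀ u ∈ S, ∀ v, v ∉ S → (Pi.single u 1 : V → ZMod 2) v = 0 := by
      intro u hu v hv
      rw [Pi.single_apply, if_neg]
      rintro rfl
      exact hv hu
    have ka := (hall (Pi.single x 1) (hs x hx) x).1
    rw [Pi.single_eq_same] at ka
    have ta : t x ≠ 0 := fun h => one_ne_zero (ka h)
    have kb := (hall (Pi.single y 1) (hs y hy) x).2 ta
    rw [Finset.sum_eq_single y, if_pos hxy, Pi.single_eq_same, Pi.single_eq_of_ne hxy', ite_self] at kb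
    · exact one_ne_zero kb
    · intro w _ hw
      rw [Pi.single_eq_of_ne hw, ite_self]
    · intro h
      exact absurd (Finset.mem_univ y) h

end Pool.Agent.IH
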